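import Pool.Agent.Helper31.GB.Final

/-!
# The switching game: Hadamard matrices with all switched sums below `(1 - ε) n^(3/2)`
-/

set_option autoImplicit false

namespace Pool.Agent.Results.MP_d7f58c_co.HadamardBelowOne

open Filter Topology

/-- The value of the position `A` of the switching game: the maximum over all sign vectors `x`, `y`
of the sum of `a_ij x_i y_j` (lights on minus lights off after the switches `x`, `y`). -/
noncomputable def best {n : ℕ} (A : Fin n → Fin n → ℤˣ) : ℤ :=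
  (Finset.univ : Finset ((Fin n → ℤˣ) × (Fin n → ℤˣ))).sup' Finset.univ_nonempty
    fun s => ∑ i : Fin n, ∑ j : Fin n, (A i j : ℤ) * (s.1 i : ℤ) * (s.2 j : ℤ)

/-- `F(n)`, the minimum of `best A` over all sign matrices `A` of order `n`. -/
noncomputable def F (n : ℕ) : ℤ :=
  (Finset.univ : Finset (Fin n → Fin n → ℤˣ)).inf' Finset.univ_nonempty fun A => best A

/-- `A` is a Hadamard matrix: its rows are pairwise orthogonal. -/
def IsHadamard {n : ℕ} (A : Fin n → Fin n → ℤˣ) : Prop :=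
  ∀ i i' : Fin n, i ≠ i' → ∑ j : Fin n, (A i j : ℤ) * (A i' j : ℤ) = 0

theorem F_le {n : ℕ} (A : Fin n → Fin n → ℤˣ) : F n ≤ best A :=
  Finset.inf'_le _ (Finset.mem_univ A)

theorem best_le {n : ℕ} (A : Fin n → Fin n → ℤˣ) (B : ℝ)
    (h : ∀ x y : Fin n → ℤˣ,
      ((∑ i : Fin n, ∑ j : Fin n, (A i j : ℤ) * (x i : ℤ) * (y j : ℤ) : ℤ) : ℝ) ≤ B) :
    (best A : ℝ) ≤ B := by
  obtain ⟨s, -, hs⟩ := Finset.exists_mem_eq_sup'
    (Finset.univ_nonempty : (Finset.univ : Finset ((Fin n → ℤˣ) × (Fin n → ℤˣ))).Nonempty)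
    (fun s => ∑ i : Fin n, ∑ j : Fin n, (A i j : ℤ) * (s.1 i : ℤ) * (s.2 j : ℤ))
  have h1 : best A = ∑ i : Fin n, ∑ j : Fin n, (A i j : ℤ) * (s.1 i : ℤ) * (s.2 j : ℤ) := hs
  rw [h1]
  exact h s.1 s.2

theorem main_pow : ∃ ε : ℝ, 0 < ε ∧ ∀ᶠ k : ℕ in atTop, ∃ A : Fin (2 ^ k) → Fin (2 ^ k) → ℤˣ,
    IsHadamard A ∧ (best A : ℝ) ≤ (1 - ε) * ((2 ^ k : ℕ) : ℝ) ^ ((3 : ℝ) / 2) := by
  obtain ⟨ε, hε, k0, hmain⟩ := Pool.Agent.Helper31.GB.main
  refine ⟨ε, hε, ?_⟩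
  filter_upwards [eventually_ge_atTop k0] with k hk
  obtain ⟨ι, i1, i2, A, hcard, hA, hbound⟩ := hmain k hk
  let e : ι ≃ Fin (2 ^ k) := Fintype.equivFinOfCardEq hcard
  have hunit : ∀ a : ℤ, (a = 1 ∨ a = -1) → ∃ u : ℤˣ, (u : ℤ) = a := by
    rintro a (h | h)
    · exact ⟨1, by simp [h]⟩
    · exact ⟨-1, by simp [h]⟩
  choose A' hA' using fun i j => hunit (A (e.symm i) (e.symm j)) (hA.pm _ _)
  refine ⟨A', ?_, ?_⟩
  · intro i i' hne
    have h1 := hA.row (e.symm i) (e.symm i')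
    rw [if_neg (fun h => hne (e.symm.injective h))] at h1
    rw [← Equiv.sum_comp e]
    rw [← h1]
    refine Finset.sum_congr rfl fun j _ => ?_
    rw [hA', hA', Equiv.symm_apply_apply]
  · refine best_le A' _ fun x y => ?_
    have hb := hbound (fun j => y (e j)) (fun i => x (e i))
    have hsum : ((∑ i : Fin (2 ^ k), ∑ j : Fin (2 ^ k), (A' i j : ℤ) * (x i : ℤ) * (y j : ℤ) : ℤ) : ℝ)
        = ∑ i, Pool.Agent.Helper31.GB.mv A (fun j => y (e j)) i * (((x (e i) : ℤˣ) : ℤ) : ℝ) := by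
      push_cast
      rw [← Equiv.sum_comp e]
      refine Finset.sum_congr rfl fun i _ => ?_
      unfold Pool.Agent.Helper31.GB.mv
      rw [← Equiv.sum_comp e, Finset.sum_mul]
      refine Finset.sum_congr rfl fun j _ => ?_
      rw [hA']
      simp only [Equiv.symm_apply_apply]
      ring
    rw [hsum]
    refine hb.trans (le_of_eq ?_)
    rw [hcard]
    have hpos : (0 : ℝ) < ((2 ^ k : ℕ) : ℝ) := by positivity
    rw [show (3 : ℝ) / 2 = 1 + 1 / 2 by norm_num, Real.rpow_add hpos, Real.rpow_one,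
      Real.sqrt_eq_rpow]

/-- There is `ε > 0` such that for all large `k` some Hadamard matrix of order `n = 2^k` has all
switched sums at most `(1 - ε) n^(3/2)`; hence `liminf F(n) / n^(3/2) ≤ 1 - ε`. -/
theorem result : ∃ ε : ℝ, 0 < ε ∧
    (∀ᶠ k : ℕ in atTop, ∃ A : Fin (2 ^ k) → Fin (2 ^ k) → ℤˣ,
      IsHadamard A ∧ (best A : ℝ) ≤ (1 - ε) * ((2 ^ k : ℕ) : ℝ) ^ ((3 : ℝ) / 2)) ∧
    liminf (fun n : ℕ => (((F n : ℝ) / (n : ℝ) ^ ((3 : ℝ) / 2) : ℝ) : EReal)) atTop ≤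
      ((1 - ε : ℝ) : EReal) := by
  obtain ⟨ε, hε, h⟩ := main_pow
  refine ⟨ε, hε, h, ?_⟩
  apply liminf_le_of_frequently_le'
  have ht : Tendsto (fun k : ℕ => 2 ^ k) atTop atTop :=
    tendsto_pow_atTop_atTop_of_one_lt (by norm_num)
  apply ht.frequently
  apply Eventually.frequently
  filter_upwards [h] with k hk
  obtain ⟨A, -, hA⟩ := hk
  rw [EReal.coe_le_coe_iff]
  have hpos : (0 : ℝ) < ((2 ^ k : ℕ) : ℝ) ^ ((3 : ℝ) / 2) := by positivity
  rw [div_le_iff₀ hpos]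
  have h1 : ((F (2 ^ k) : ℤ) : ℝ) ≤ (best A : ℝ) := by exact_mod_cast F_le A
  exact h1.trans hA

end Pool.Agent.Results.MP_d7f58c_co.HadamardBelowOne
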